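import Pool.Agent.H634R2.RedBlue

/-!
# The unweighted red-blue `s`-`t` cut problem in undirected graphs is NP-hard
-/

namespace Pool.Agent.Results.MP_ad21dd_lc.NPHard

open Pool.Agent.NPC Pool.Agent.NPC.H634R2

/-- The unweighted red-blue `s`-`t` cut problem in undirected (simple) graphs is `NP`-hard under
polynomial-time many-one reductions. -/
theorem result : NPHardP RBCut := npHard_RBCut

end Pool.Agent.Results.MP_ad21dd_lc.NPHard
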